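import Pool.Agent.H815.QC.Stm

/-!
# Project QC, statement P4: a special element
-/

set_option autoImplicit false

namespace Pool.Agent.H137.QC

open Pool.Agent.Y110.FJ Pool.Agent.T2H65.GP Pool.Agent.H815.QC

/-- the homomorphism of the group of order two to a reflection of the infinite dihedral group -/
def rf (i : ZMod 0) : Multiplicative (ZMod 2) →* DihedralGroup 0 where
  toFun a := if a = 1 then 1 else DihedralGroup.sr i
  map_one' := if_pos rfl
  map_mul' a b := by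
    have h : ∀ a b : Multiplicative (ZMod 2), (a = 1 ∧ b = 1 ∧ a * b = 1) ∨ (a = 1 ∧ b ≠ 1 ∧ a * b ≠ 1) ∨
        (a ≠ 1 ∧ b = 1 ∧ a * b ≠ 1) ∨ (a ≠ 1 ∧ b ≠ 1 ∧ a * b = 1) := by decide
    rcases h a b with ⟨h1, h2, h3⟩ | ⟨h1, h2, h3⟩ | ⟨h1, h2, h3⟩ | ⟨h1, h2, h3⟩
    · rw [if_pos h1, if_pos h2, if_pos h3, mul_one]
    · rw [if_pos h1, if_neg h2, if_neg h3, one_mul]
    · rw [if_neg h1, if_pos h2, if_neg h3, mul_one]
    · rw [if_neg h1, if_neg h2, if_pos h3, DihedralGroup.sr_mul_self]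

/-- the nontrivial element -/
abbrev tw : Multiplicative (ZMod 2) := Multiplicative.ofAdd 1

theorem rf_tw (i : ZMod 0) : rf i tw = DihedralGroup.sr i := by
  show (if tw = 1 then (1 : DihedralGroup 0) else DihedralGroup.sr i) = DihedralGroup.sr i
  have h : tw ≠ 1 := by decide
  rw [if_neg h]

/-- the first vertex -/
abbrev vs (v : Fin 5) : V1 := (v + 1, 0)

/-- the second vertex -/
abbrev vt (v : Fin 5) : V1 := (v + 4, 0)

theorem st_ne (v : Fin 5) : vs v ≠ vt v := by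
  have : ∀ v : Fin 5, vs v ≠ vt v := by decide
  exact this v

theorem st_nadj (v : Fin 5) : ¬ Γ1.Adj (vs v) (vt v) := by
  have : ∀ v : Fin 5, ¬ (v + 4 = v + 1 + 1 ∨ v + 1 = v + 4 + 1) := by decide
  exact this v

/-- the two vertices -/
def TT (v : Fin 5) : V1 → Prop := fun a => a = vs v ∨ a = vt v

theorem TT_ind (v : Fin 5) : Ind Γ1 (TT v) := by
  rintro s t (rfl | rfl) (rfl | rfl) h
  · exact h.ne rfl
  · exact st_nadj v h
  · exact st_nadj v h.symm
  · exact h.ne rfl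

theorem TT_nb (v : Fin 5) (a : V1) (h : TT v a) : nb v a := by
  have h1 : ∀ v : Fin 5, v = v + 4 + 1 := by decide
  rcases h with rfl | rfl
  · exact Or.inl rfl
  · exact Or.inr (h1 v)

theorem pp_TT (v : Fin 5) (a : V1) (h : pp Γ1 (TT v) a) : cl v a := by
  have h1 : (v + 1 = a.1 + 1 ∨ a.1 = v + 1 + 1) := h (vs v) (Or.inl rfl)
  have h2 : (v + 4 = a.1 + 1 ∨ a.1 = v + 4 + 1) := h (vt v) (Or.inr rfl)
  have h3 : ∀ v x : Fin 5, (v + 1 = x + 1 ∨ x = v + 1 + 1) → (v + 4 = x + 1 ∨ x = v + 4 + 1) → x = v := by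
    decide
  exact h3 v a.1 h1 h2

theorem TT_cl (v : Fin 5) (a b : V1) (ha : TT v a) (hb : cl v b) : Γ1.Adj a b := by
  rcases TT_nb v a ha with h | h
  · exact Or.inr (by rw [hb]; exact h)
  · exact Or.inl (by rw [hb]; exact h)

theorem cl_ind (v : Fin 5) : Ind Γ1 (cl v) := by
  intro s t hs ht h
  have h1 : ∀ x : Fin 5, ¬ (x = x + 1 ∨ x = x + 1) := by decide
  have h2 : t.1 = s.1 + 1 ∨ s.1 = t.1 + 1 := h
  rw [show s.1 = v from hs, show t.1 = v from ht] at h2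
  exact h1 v h2

/-- the product of the two reflections -/
noncomputable abbrev ww (v : Fin 5) : P1 := GrP.of Γ1 B1 (vs v) tw * GrP.of Γ1 B1 (vt v) tw

/-- the homomorphisms of the vertex groups to the infinite dihedral group -/
def fh (v : Fin 5) (a : V1) : B1 a →* DihedralGroup 0 :=
  if a = vs v then rf 0 else if a = vt v then rf 1 else 1

theorem fh_comm (v : Fin 5) : ∀ a b : V1, Γ1.Adj a b → ∀ (x : B1 a) (y : B1 b),
    fh v a x * fh v b y = fh v b y * fh v a x := by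
  intro a b hab x y
  by_cases ha : TT v a
  · have hb : ¬ TT v b := fun hb => TT_ind v a b ha hb hab
    have h1 : fh v b = 1 := by
      rw [fh, if_neg (fun h => hb (Or.inl h)), if_neg (fun h => hb (Or.inr h))]
    rw [h1]
    show fh v a x * 1 = 1 * fh v a x
    rw [mul_one, one_mul]
  · have h1 : fh v a = 1 := by
      rw [fh, if_neg (fun h => ha (Or.inl h)), if_neg (fun h => ha (Or.inr h))]
    rw [h1]
    show 1 * fh v b y = fh v b y * 1
    rw [mul_one, one_mul]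

theorem ww_pow (v : Fin 5) (n : ℕ) (hn : 0 < n) : ww v ^ n ≠ 1 := by
  intro h
  have h1 := congrArg (glift (fh v) (fh_comm v)) h
  rw [map_pow, map_mul, glift_of, glift_of, map_one] at h1
  have h2 : fh v (vs v) = rf 0 := if_pos rfl
  have h3 : fh v (vt v) = rf 1 := by
    rw [fh, if_neg (st_ne v).symm, if_pos rfl]
  rw [h2, h3, rf_tw, rf_tw, DihedralGroup.sr_mul_sr] at h1
  have h4 : ((1 : ZMod 0) - 0) = 1 := sub_zero 1
  rw [h4, DihedralGroup.r_one_pow, DihedralGroup.one_def] at h1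
  have h5 : ((n : ℕ) : ZMod 0) = 0 := DihedralGroup.r.inj h1
  have h6 : ((n : ℕ) : ℤ) = 0 := h5
  omega

theorem ww_mem (v : Fin 5) : ww v ∈ std Γ1 B1 (TT v) :=
  mul_mem (vg_le_std Γ1 B1 (Or.inl rfl) ⟨tw, rfl⟩) (vg_le_std Γ1 B1 (Or.inr rfl) ⟨tw, rfl⟩)

/-- elements of a vertex group have order at most two -/
theorem sq_std {a : V1} {T : V1 → Prop} (hT : ∀ b, T b → b = a) {x : P1} (hx : x ∈ std Γ1 B1 T) :
    x ^ 2 = 1 := by
  have h1 : std Γ1 B1 T ≤ vg Γ1 B1 a := by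
    refine std_le Γ1 B1 fun b hb => ?_
    rw [hT b hb]
  obtain ⟨b, rfl⟩ := h1 hx
  rw [← map_pow]
  have h2 : ∀ b : Multiplicative (ZMod 2), b ^ 2 = 1 := by decide
  have h3 : b ^ 2 = 1 := h2 b
  rw [h3, map_one]

theorem ww_Mn (v : Fin 5) (n : ℕ) (hn : 0 < n) : Mn Γ1 B1 (TT v) (ww v ^ n) := by
  refine ⟨pow_mem (ww_mem v) n, ?_⟩
  rintro T' h1 ⟨u, hu, hu'⟩ c hc
  have h2 : ∃ a : V1, ∀ b, T' b → b = a := by
    rcases hu with rfl | rfl
    · refine ⟨vt v, fun b hb => ?_⟩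
      rcases h1 b hb with h | h
      · rw [h] at hb
        exact absurd hb hu'
      · exact h
    · refine ⟨vs v, fun b hb => ?_⟩
      rcases h1 b hb with h | h
      · exact h
      · rw [h] at hb
        exact absurd hb hu'
  obtain ⟨a, ha⟩ := h2
  have h3 := sq_std ha hc
  have h4 : (c⁻¹ * ww v ^ n * c) ^ 2 = c⁻¹ * ww v ^ (n * 2) * c := by
    rw [pow_mul, pow_two, pow_two]
    group
  rw [h4] at h3
  apply ww_pow v (n * 2) (by omega)
  have h5 : ww v ^ (n * 2) = c * (c⁻¹ * ww v ^ (n * 2) * c) * c⁻¹ := by group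
  rw [h5, h3]
  group

/-- P4 -/
theorem P4_proof (_hB1 : S_B1) (hB2 : S_B2) (hB3 : S_B3) : Pool.Agent.H815.QC.S_P4 := by
  intro N _ α hα _ v g
  have hcyc : ∀ a : V1, IsCyclic (B1 a) := fun a => (inferInstance : IsCyclic (Multiplicative (ZMod 2)))
  -- the conjugated homomorphism
  let φ : N →* P1 := (MulAut.conj g⁻¹).toMonoidHom.comp α
  have hφ : ∀ n, φ n = g⁻¹ * α n * g := by
    intro n
    show g⁻¹ * α n * (g⁻¹)⁻¹ = _
    rw [inv_inv]
  have hinj : Function.Injective φ := by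
    intro a b hab
    rw [hφ, hφ] at hab
    apply hα.1
    have h1 : g * (g⁻¹ * α a * g) * g⁻¹ = g * (g⁻¹ * α b * g) * g⁻¹ := by rw [hab]
    have h2 : ∀ y : P1, g * (g⁻¹ * y * g) * g⁻¹ = y := fun y => by group
    rwa [h2, h2] at h1
  have hHs : ∀ n, n ∈ Hs α v g ↔ φ n ∈ std Γ1 B1 (cl v) := fun n => Iff.rfl
  -- the element
  obtain ⟨m, hm, _, hmem⟩ := Subgroup.exists_pow_mem_of_index_ne_zero (H := α.range) hα.2.index_ne_zero
    (g * ww v * g⁻¹)
  obtain ⟨k, hk⟩ := hmem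
  have hφk : φ k = ww v ^ m := by
    rw [hφ, hk, conj_pow]
    group
  have hMn : Mn Γ1 B1 (TT v) (φ k) := by
    rw [hφk]
    exact ww_Mn v m hm
  have hne : φ k ≠ 1 := by
    rw [hφk]
    exact ww_pow v m hm
  have hkT : φ k ∈ std Γ1 B1 (TT v) := hMn.1
  obtain ⟨z, hz⟩ := hB2 V1 Γ1 B1 hcyc (TT v) (TT_ind v) (φ k) hkT hne
  obtain ⟨j0, hj0⟩ := hz (φ k) hkT rfl
  have hj0' : z ^ j0 = φ k := hj0
  have hj0ne : j0 ≠ 0 := by
    rintro rfl
    rw [zpow_zero] at hj0'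
    exact hne hj0'.symm
  -- the structure of the centralizer
  have hdec : ∀ a, a * k = k * a → ∃ (i : ℤ) (a2 : P1), a2 ∈ std Γ1 B1 (cl v) ∧ φ a = z ^ i * a2 ∧
      z ^ i ∈ std Γ1 B1 (TT v) := by
    intro a ha
    have h1 : φ a * φ k = φ k * φ a := by rw [← map_mul, ha, map_mul]
    obtain ⟨y1, hy1, y2, hy2, h2, h3⟩ := hB3 V1 Γ1 B1 (TT v) (φ k) hMn (φ a) h1
    obtain ⟨i, hi⟩ := hz y1 hy1 h3
    have hi' : z ^ i = y1 := hi
    refine ⟨i, y2, std_mono Γ1 B1 (pp_TT v) hy2, ?_, ?_⟩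
    · rw [hi']
      exact h2
    · rw [hi']
      exact hy1
  have hcomm : ∀ (i : ℤ) (a2 : P1), a2 ∈ std Γ1 B1 (cl v) → z ^ i ∈ std Γ1 B1 (TT v) →
      z ^ i * a2 = a2 * z ^ i := fun i a2 h1 h2 => std_comm Γ1 B1 (TT_cl v) h2 h1
  refine ⟨k, ?_, ?_, ?_, ?_⟩
  · show φ k ∈ std Γ1 B1 (nb v)
    exact std_mono Γ1 B1 (TT_nb v) hkT
  · rintro rfl
    exact hne (map_one φ)
  · intro a b ha hb
    obtain ⟨i, a2, ha2, hia, hzi⟩ := hdec a ha
    obtain ⟨j, b2, hb2, hjb, hzj⟩ := hdec b hb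
    rw [hHs, map_mul, map_mul, map_mul, map_inv, map_inv, hia, hjb]
    have c1 : Commute (z ^ i) a2 := hcomm i a2 ha2 hzi
    have c2 : Commute (z ^ i) b2 := hcomm i b2 hb2 hzi
    have c3 : Commute (z ^ j) a2 := hcomm j a2 ha2 hzj
    have c4 : Commute (z ^ j) b2 := hcomm j b2 hb2 hzj
    have c5 : Commute (z ^ i) (z ^ j) := (Commute.refl z).zpow_zpow i j
    have h1 : z ^ i * a2 * (z ^ j * b2) * (z ^ i * a2)⁻¹ * (z ^ j * b2)⁻¹ = a2 * b2 * a2⁻¹ * b2⁻¹ := by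
      have e1 : z ^ i * a2 * (z ^ j * b2) = (z ^ i * z ^ j) * (a2 * b2) := by
        rw [mul_assoc (z ^ i) a2, ← mul_assoc a2 (z ^ j), ← c3.eq]
        group
      have e2 : z ^ j * b2 * (z ^ i * a2) = (z ^ i * z ^ j) * (b2 * a2) := by
        rw [mul_assoc (z ^ j) b2, ← mul_assoc b2 (z ^ i), ← c2.eq, c5.eq]
        group
      have e3 : z ^ i * a2 * (z ^ j * b2) * (z ^ i * a2)⁻¹ * (z ^ j * b2)⁻¹ =
          z ^ i * a2 * (z ^ j * b2) * (z ^ j * b2 * (z ^ i * a2))⁻¹ := by group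
      have c6 : Commute (z ^ i * z ^ j) (a2 * b2) :=
        Commute.mul_left (c1.mul_right c2) (c3.mul_right c4)
      have c7 : Commute (z ^ i * z ^ j) (b2 * a2) :=
        Commute.mul_left (c2.mul_right c1) (c4.mul_right c3)
      rw [e3, e1, e2, mul_inv_rev, c6.eq]
      have e4 : a2 * b2 * (z ^ i * z ^ j) * ((b2 * a2)⁻¹ * (z ^ i * z ^ j)⁻¹) =
          a2 * b2 * ((z ^ i * z ^ j) * (b2 * a2)⁻¹ * (z ^ i * z ^ j)⁻¹) := by group
      rw [e4, (c7.inv_right).eq]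
      group
    rw [h1]
    exact mul_mem (mul_mem (mul_mem ha2 hb2) (inv_mem ha2)) (inv_mem hb2)
  · intro a b ha hb hab
    obtain ⟨i, a2, ha2, hia, hzi⟩ := hdec a ha
    obtain ⟨j, b2, hb2, hjb, hzj⟩ := hdec b hb
    have c1 : Commute (z ^ i) a2 := hcomm i a2 ha2 hzi
    have c2 : Commute (z ^ i) b2 := hcomm i b2 hb2 hzi
    have c3 : Commute (z ^ j) a2 := hcomm j a2 ha2 hzj
    have c4 : Commute (z ^ j) b2 := hcomm j b2 hb2 hzj
    have c5 : Commute (z ^ i) (z ^ j) := (Commute.refl z).zpow_zpow i j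
    -- the second components commute
    have c6 : a2 * b2 = b2 * a2 := by
      have h1 : φ a * φ b = φ b * φ a := by rw [← map_mul, hab, map_mul]
      rw [hia, hjb] at h1
      have e1 : z ^ i * a2 * (z ^ j * b2) = (z ^ i * z ^ j) * (a2 * b2) := by
        rw [mul_assoc (z ^ i) a2, ← mul_assoc a2 (z ^ j), ← c3.eq]
        group
      have e2 : z ^ j * b2 * (z ^ i * a2) = (z ^ i * z ^ j) * (b2 * a2) := by
        rw [mul_assoc (z ^ j) b2, ← mul_assoc b2 (z ^ i), ← c2.eq, c5.eq]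
        group
      rw [e1, e2] at h1
      exact mul_left_cancel h1
    -- a relation between the second components
    obtain ⟨p, q, hpq, hrel⟩ : ∃ p q : ℤ, (p ≠ 0 ∨ q ≠ 0) ∧ a2 ^ p * b2 ^ q = 1 := by
      by_cases h2 : a2 = 1
      · exact ⟨1, 0, Or.inl one_ne_zero, by rw [h2, one_zpow, zpow_zero, mul_one]⟩
      · obtain ⟨z', hz'⟩ := hB2 V1 Γ1 B1 hcyc (cl v) (cl_ind v) a2 ha2 h2
        obtain ⟨r, hr⟩ := hz' a2 ha2 rfl
        obtain ⟨s, hs⟩ := hz' b2 hb2 c6.symm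
        have hr' : z' ^ r = a2 := hr
        have hs' : z' ^ s = b2 := hs
        refine ⟨s, -r, Or.inr ?_, ?_⟩
        · intro h3
          have h4 : r = 0 := by omega
          rw [h4, zpow_zero] at hr'
          exact h2 hr'.symm
        · rw [← hr', ← hs', ← zpow_mul, ← zpow_mul, ← zpow_add]
          have : r * s + s * -r = 0 := by ring
          rw [this, zpow_zero]
    refine ⟨p * j0, q * j0, i * p + j * q, ?_, ?_⟩
    · rcases hpq with h | h
      · exact Or.inl (mul_ne_zero h hj0ne)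
      · exact Or.inr (mul_ne_zero h hj0ne)
    · apply hinj
      rw [map_mul, map_zpow, map_zpow, map_zpow, hia, hjb, ← hj0', c1.mul_zpow, c4.mul_zpow]
      have d1 : Commute (a2 ^ (p * j0)) ((z ^ j) ^ (q * j0)) := (c3.symm).zpow_zpow _ _
      have e1 : (z ^ i) ^ (p * j0) * a2 ^ (p * j0) * ((z ^ j) ^ (q * j0) * b2 ^ (q * j0)) =
          (z ^ i) ^ (p * j0) * (z ^ j) ^ (q * j0) * (a2 ^ (p * j0) * b2 ^ (q * j0)) := by
        rw [mul_assoc ((z ^ i) ^ (p * j0)), ← mul_assoc (a2 ^ (p * j0)), d1.eq]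
        group
      have d2 : Commute (a2 ^ p) (b2 ^ q) := Commute.zpow_zpow (show Commute a2 b2 from c6) p q
      have e2 : a2 ^ (p * j0) * b2 ^ (q * j0) = 1 := by
        rw [zpow_mul, zpow_mul, ← d2.mul_zpow, hrel, one_zpow]
      rw [e1, e2, mul_one, ← zpow_mul, ← zpow_mul, ← zpow_mul, ← zpow_add]
      congr 1
      ring

end Pool.Agent.H137.QC
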